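import Pool.Agent.L0h16.VO.Defs

/-!
# VO, module DET: bounds for the determinant (Minkowski, Hadamard)
-/

set_option autoImplicit false

open scoped Matrix
open MeasureTheory

namespace Pool.Agent.L0h39.VO

open Pool.Agent.L0h16.VO

variable {m : ℕ}

/-- the form as a product -/
lemma qf_eq (Q : Matrix (Fin m) (Fin m) ℝ) (v : Fin m → ℝ) : qf Q v = v ⬝ᵥ (Q *ᵥ v) := by
  unfold qf
  rw [dotProduct]
  refine Finset.sum_congr rfl fun i _ => ?_
  rw [Matrix.mulVec, dotProduct, Finset.mul_sum]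
  exact Finset.sum_congr rfl fun j _ => by ring

lemma posDef_of {Q : Matrix (Fin m) (Fin m) ℝ} (hQ : Q ∈ PD m) : Q.PosDef := by
  refine Matrix.PosDef.of_dotProduct_mulVec_pos ?_ ?_
  · ext i j
    rw [Matrix.conjTranspose_apply, star_trivial]
    exact hQ.1 j i
  · intro x hx
    have := hQ.2 x hx
    rw [qf_eq] at this
    rw [star_trivial]
    exact this

open scoped MatrixOrder in
/-- a square root -/
lemma exists_root {Q : Matrix (Fin m) (Fin m) ℝ} (hQ : Q ∈ PD m) :
    ∃ B : Matrix (Fin m) (Fin m) ℝ, Q = Bᵀ * B := by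
  have h := (posDef_of hQ).posSemidef
  obtain ⟨B, hB⟩ := CStarAlgebra.nonneg_iff_eq_star_mul_self.mp h.nonneg
  refine ⟨B, ?_⟩
  rw [hB, Matrix.star_eq_conjTranspose, Matrix.conjTranspose_eq_transpose_of_trivial]

/-- Minkowski's theorem for the lattice of integral vectors -/
lemma exists_int {s : Set (Fin m → ℝ)} (h_symm : ∀ x ∈ s, -x ∈ s) (h_conv : Convex ℝ s)
    (hv : (2 : ENNReal) ^ m < volume s) : ∃ v : Fin m → ℤ, v ≠ 0 ∧ rv v ∈ s := by
  classical
  have hfund := ZSpan.isAddFundamentalDomain' (Pi.basisFun ℝ (Fin m))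
    (volume : Measure (Fin m → ℝ))
  have hcount : Countable
      (Submodule.span ℤ (Set.range (Pi.basisFun ℝ (Fin m)))).toAddSubgroup :=
    inferInstanceAs (Countable (Submodule.span ℤ (Set.range (Pi.basisFun ℝ (Fin m)))))
  have hvol : volume (ZSpan.fundamentalDomain (Pi.basisFun ℝ (Fin m))) *
      2 ^ Module.finrank ℝ (Fin m → ℝ) < volume s := by
    rw [ZSpan.fundamentalDomain_pi_basisFun, volume_pi, Measure.pi_pi, Real.volume_Ico, sub_zero,
      ENNReal.ofReal_one, Finset.prod_const_one, one_mul, Module.finrank_fin_fun]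
    exact hv
  obtain ⟨x, hx0, hxs⟩ :=
    exists_ne_zero_mem_lattice_of_measure_mul_two_pow_lt_measure hfund h_symm h_conv hvol
  have hint : ∀ i, ∃ z : ℤ, (z : ℝ) = (x : Fin m → ℝ) i := by
    intro i
    have h2 : (x : Fin m → ℝ) ∈ Submodule.span ℤ (Set.range (Pi.basisFun ℝ (Fin m))) := x.2
    rw [Module.Basis.mem_span_iff_repr_mem] at h2
    obtain ⟨z, hz⟩ := h2 i
    exact ⟨z, by simpa using hz⟩
  choose z hz using hint
  have hxz : rv z = (x : Fin m → ℝ) := funext hz
  refine ⟨z, ?_, by rw [hxz]; exact hxs⟩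
  rintro rfl
  apply hx0
  apply Subtype.ext
  rw [← hxz]
  funext i
  simp [rv]

/-- the unit ball -/
def ball (m : ℕ) : Set (Fin m → ℝ) := {y | ∑ i, y i ^ 2 < 1}

lemma ball_open : IsOpen (ball m) :=
  isOpen_lt (continuous_finsetSum _ fun i _ => (continuous_apply i).pow 2) continuous_const

lemma ball_pos : 0 < volume (ball m) :=
  ball_open.measure_pos volume ⟨0, by
    show ∑ i : Fin m, (0 : Fin m → ℝ) i ^ 2 < 1
    simp⟩

lemma ball_finite : volume (ball m) < ⊤ := by
  refine lt_of_le_of_lt (measure_mono (t := Metric.closedBall (0 : Fin m → ℝ) 1) ?_)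
    measure_closedBall_lt_top
  intro y hy
  rw [Metric.mem_closedBall, dist_zero_right, pi_norm_le_iff_of_nonneg zero_le_one]
  intro i
  have h1 : y i ^ 2 ≤ ∑ j, y j ^ 2 :=
    Finset.single_le_sum (f := fun j => y j ^ 2) (fun j _ => sq_nonneg _) (Finset.mem_univ i)
  have h2 : y i ^ 2 ≤ 1 := h1.trans (le_of_lt hy)
  rw [Real.norm_eq_abs]
  nlinarith [sq_abs (y i), abs_nonneg (y i)]

lemma sum_sq (v : Fin m → ℝ) : ∑ i, v i ^ 2 = v ⬝ᵥ v := by
  rw [dotProduct]
  exact Finset.sum_congr rfl fun i _ => by ring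

lemma qf_root {Q B : Matrix (Fin m) (Fin m) ℝ} (h : Q = Bᵀ * B) (v : Fin m → ℝ) :
    qf Q v = ∑ i, (B *ᵥ v) i ^ 2 := by
  rw [qf_eq, h, sum_sq, ← Matrix.mulVec_mulVec, Matrix.dotProduct_mulVec, Matrix.vecMul_transpose]

/-- the ellipsoid -/
lemma low {Q : Matrix (Fin m) (Fin m) ℝ} (hQ : Q ∈ PD m)
    (h1 : ∀ v : Fin m → ℤ, v ≠ 0 → 1 ≤ qf Q (rv v)) :
    ((volume (ball m)).toReal / 2 ^ m) ^ 2 ≤ Q.det := by
  obtain ⟨B, hB⟩ := exists_root hQ
  have hdet : Q.det = B.det ^ 2 := by
    rw [hB, Matrix.det_mul, Matrix.det_transpose]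
    ring
  have hQpos : 0 < Q.det := (posDef_of hQ).det_pos
  have hB0 : B.det ≠ 0 := by
    intro h
    rw [hdet, h] at hQpos
    norm_num at hQpos
  have hunit : IsUnit B.det := isUnit_iff_ne_zero.2 hB0
  -- the body
  let s : Set (Fin m → ℝ) := {x | qf Q x < 1}
  have hs : s = (Matrix.toLin' B⁻¹) '' ball m := by
    ext x
    constructor
    · intro hx
      refine ⟨B *ᵥ x, ?_, ?_⟩
      · show ∑ i, (B *ᵥ x) i ^ 2 < 1
        rw [← qf_root hB]
        exact hx
      · rw [Matrix.toLin'_apply, Matrix.mulVec_mulVec, Matrix.nonsing_inv_mul _ hunit,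
          Matrix.one_mulVec]
    · rintro ⟨y, hy, rfl⟩
      show qf Q _ < 1
      rw [qf_root hB, Matrix.toLin'_apply, Matrix.mulVec_mulVec, Matrix.mul_nonsing_inv _ hunit,
        Matrix.one_mulVec]
      exact hy
  have hvol : volume s = ENNReal.ofReal |(B⁻¹).det| * volume (ball m) := by
    rw [hs, Measure.addHaar_image_linearMap, LinearMap.det_toLin']
  have hsym : ∀ x ∈ s, -x ∈ s := by
    intro x hx
    show qf Q (-x) < 1
    have : qf Q (-x) = qf Q x := by
      unfold qf
      exact Finset.sum_congr rfl fun i _ => Finset.sum_congr rfl fun j _ => by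
        simp only [Pi.neg_apply]; ring
    rw [this]
    exact hx
  have hconv : Convex ℝ s := by
    rw [hs]
    refine Convex.linear_image ?_ _
    intro x hx y hy a b ha hb hab
    show ∑ i, (a • x + b • y) i ^ 2 < 1
    have hx' : ∑ i, x i ^ 2 < 1 := hx
    have hy' : ∑ i, y i ^ 2 < 1 := hy
    have h2 : ∑ i, (a • x + b • y) i ^ 2 ≤ a * ∑ i, x i ^ 2 + b * ∑ i, y i ^ 2 := by
      rw [Finset.mul_sum, Finset.mul_sum, ← Finset.sum_add_distrib]
      refine Finset.sum_le_sum fun i _ => ?_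
      simp only [Pi.add_apply, Pi.smul_apply, smul_eq_mul]
      have hb' : b = 1 - a := by linarith
      subst hb'
      nlinarith [mul_nonneg (mul_nonneg ha hb) (sq_nonneg (x i - y i))]
    rcases eq_or_lt_of_le ha with h0 | h0
    · subst h0
      have hb1 : b = 1 := by linarith
      subst hb1
      linarith
    · nlinarith
  have hle : volume s ≤ (2 : ENNReal) ^ m := by
    by_contra hcon
    rw [not_le] at hcon
    obtain ⟨v, hv0, hv⟩ := exists_int hsym hconv hcon
    exact absurd (h1 v hv0) (not_le.2 hv)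
  have hreal : |(B⁻¹).det| * (volume (ball m)).toReal ≤ 2 ^ m := by
    rw [hvol] at hle
    have h3 := ENNReal.toReal_mono (by finiteness) hle
    rw [ENNReal.toReal_mul, ENNReal.toReal_ofReal (abs_nonneg _)] at h3
    simpa using h3
  have hinv : |(B⁻¹).det| = |B.det|⁻¹ := by
    rw [Matrix.det_nonsing_inv, Ring.inverse_eq_inv', abs_inv]
  rw [hinv] at hreal
  have hBp : 0 < |B.det| := abs_pos.2 hB0
  have h4 : (volume (ball m)).toReal ≤ 2 ^ m * |B.det| := by
    rw [inv_mul_le_iff₀ hBp] at hreal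
    linarith
  have h5 : (volume (ball m)).toReal / 2 ^ m ≤ |B.det| := by
    rw [div_le_iff₀ (by positivity)]
    linarith
  rw [hdet, ← sq_abs B.det]
  exact pow_le_pow_left₀ (by positivity) h5 2

/-- Hadamard's inequality for matrices with diagonal entries one -/
lemma det_le_one {G : Matrix (Fin m) (Fin m) ℝ} (hG : G.PosDef) (h1 : ∀ j, G j j = 1) :
    G.det ≤ 1 := by
  have hh := hG.isHermitian
  have h2 : G.det = ∏ i, hh.eigenvalues i := by
    have := hh.det_eq_prod_eigenvalues
    simpa using this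
  have h3 : G.trace = ∑ i, hh.eigenvalues i := by
    have := hh.trace_eq_sum_eigenvalues
    simpa using this
  have h4 : G.trace = m := by
    rw [Matrix.trace, Finset.sum_congr rfl fun i _ => (Matrix.diag_apply G i).trans (h1 i)]
    simp
  have h5 : ∏ i, hh.eigenvalues i ≤ ∏ i, Real.exp (hh.eigenvalues i - 1) := by
    refine Finset.prod_le_prod (fun i _ => (hG.eigenvalues_pos i).le) fun i _ => ?_
    have := Real.add_one_le_exp (hh.eigenvalues i - 1)
    linarith
  rw [h2]
  refine h5.trans ?_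
  rw [← Real.exp_sum, Finset.sum_sub_distrib, ← h3, h4]
  simp

theorem t_DET : S_DET := by
  intro m
  refine ⟨((volume (ball m)).toReal / 2 ^ m) ^ 2, ?_, ?_⟩
  · have : 0 < (volume (ball m)).toReal := ENNReal.toReal_pos ball_pos.ne' ball_finite.ne
    positivity
  · intro Q hQ h1
    refine ⟨low hQ h1, ?_⟩
    intro V hV hcol
    let R : Matrix (Fin m) (Fin m) ℝ := V.map (Int.cast : ℤ → ℝ)
    have hRdet : R.det = (V.det : ℝ) := by
      show (V.map (Int.cast : ℤ → ℝ)).det = _
      exact (Int.cast_det V).symm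
    have hR0 : R.det ≠ 0 := by
      rw [hRdet]
      exact_mod_cast hV
    have hinj : Function.Injective R.mulVec := by
      apply Matrix.mulVec_injective_of_isUnit
      rw [Matrix.isUnit_iff_isUnit_det]
      exact isUnit_iff_ne_zero.2 hR0
    have hG : (Rᵀ * Q * R).PosDef := by
      have := (posDef_of hQ).conjTranspose_mul_mul_same hinj
      rwa [Matrix.conjTranspose_eq_transpose_of_trivial] at this
    have hdiag : ∀ j, (Rᵀ * Q * R) j j = 1 := by
      intro j
      rw [← hcol j]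
      unfold qf
      rw [Matrix.mul_apply]
      have e1 : ∀ k, (Rᵀ * Q) j k * R k j = ∑ i, Q i k * (V i j : ℝ) * (V k j : ℝ) := by
        intro k
        rw [Matrix.mul_apply, Finset.sum_mul]
        refine Finset.sum_congr rfl fun i _ => ?_
        rw [Matrix.transpose_apply]
        show (V i j : ℝ) * Q i k * (V k j : ℝ) = _
        ring
      rw [Finset.sum_congr rfl fun k _ => e1 k, Finset.sum_comm]
      rfl
    have h2 := det_le_one hG hdiag
    rw [Matrix.det_mul, Matrix.det_mul, Matrix.det_transpose, hRdet] at h2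
    calc (V.det : ℝ) ^ 2 * Q.det = (V.det : ℝ) * Q.det * (V.det : ℝ) := by ring
      _ ≤ 1 := h2

end Pool.Agent.L0h39.VO
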