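import Pool.Agent.L0h16.VO.Defs

/-!
# VO, module LAT: integral matrices of bounded nonzero determinant, up to `GL_m(ℤ)`
-/

set_option autoImplicit false

open scoped Matrix

namespace Pool.Agent.L0h39.VO

variable {m : ℕ}

/-- one step -/
lemma lat_step {N : ℤ} (hN : N ≠ 0) {V V' W W' Z : Matrix (Fin m) (Fin m) ℤ}
    (h1 : W * V = N • 1) (h2 : V' * W' = N • 1) (hZ : W = W' + N • Z) :
    (1 + V' * Z) * V = V' := by
  have h3 : N • ((1 + V' * Z) * V) = N • V' := by
    have e1 : N • ((1 + V' * Z) * V) = N • V + V' * (N • Z) * V := by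
      rw [add_mul, one_mul, smul_add, Matrix.mul_smul, Matrix.smul_mul]
    have e2 : N • Z = W - W' := by rw [hZ]; abel
    rw [e1, e2, Matrix.mul_sub, Matrix.sub_mul, Matrix.mul_assoc, h1, h2]
    rw [Matrix.mul_smul, Matrix.mul_one, Matrix.smul_mul, Matrix.one_mul]
    abel
  ext i j
  have h4 := congrFun (congrFun h3 i) j
  rw [Matrix.smul_apply, Matrix.smul_apply, smul_eq_mul, smul_eq_mul] at h4
  exact mul_left_cancel₀ hN h4

theorem t_LAT : Pool.Agent.L0h16.VO.S_LAT := by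
  classical
  intro m k
  obtain ⟨N, hN0, hN⟩ : ∃ N : ℕ, N ≠ 0 ∧ ∀ d : ℤ, d ≠ 0 → |d| ≤ k → d ∣ (N : ℤ) := by
    refine ⟨k.natAbs.factorial, Nat.factorial_ne_zero _, ?_⟩
    intro d hd hdk
    rw [Int.dvd_natCast]
    apply Nat.dvd_factorial (Int.natAbs_pos.2 hd)
    have h1 : (d.natAbs : ℤ) ≤ k := by rw [Int.natCast_natAbs]; exact hdk
    omega
  have hNz : NeZero N := ⟨hN0⟩
  have hNi : (N : ℤ) ≠ 0 := by exact_mod_cast hN0
  let P : Matrix (Fin m) (Fin m) ℤ → Prop := fun V => V.det ≠ 0 ∧ |V.det| ≤ k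
  let W : Matrix (Fin m) (Fin m) ℤ → Matrix (Fin m) (Fin m) ℤ := fun V =>
    ((N : ℤ) / V.det) • V.adjugate
  let κ : Matrix (Fin m) (Fin m) ℤ → Matrix (Fin m) (Fin m) (ZMod N) := fun V =>
    (W V).map (Int.cast : ℤ → ZMod N)
  have hW : ∀ V, P V → W V * V = (N : ℤ) • 1 ∧ V * W V = (N : ℤ) • 1 := by
    intro V hV
    have h1 := hN V.det hV.1 hV.2
    have h2 : (N : ℤ) / V.det * V.det = N := Int.ediv_mul_cancel h1
    refine ⟨?_, ?_⟩
    · show ((N : ℤ) / V.det) • V.adjugate * V = _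
      rw [Matrix.smul_mul, Matrix.adjugate_mul, smul_smul, h2]
    · show V * (((N : ℤ) / V.det) • V.adjugate) = _
      rw [Matrix.mul_smul, Matrix.mul_adjugate, smul_smul, h2]
  let ch : Matrix (Fin m) (Fin m) (ZMod N) → Matrix (Fin m) (Fin m) ℤ := fun c =>
    if h : ∃ V, P V ∧ κ V = c then h.choose else 1
  have hch : ∀ V, P V → P (ch (κ V)) ∧ κ (ch (κ V)) = κ V := by
    intro V hV
    have h : ∃ V', P V' ∧ κ V' = κ V := ⟨V, hV, rfl⟩
    have e : ch (κ V) = h.choose := dif_pos h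
    rw [e]
    exact h.choose_spec
  refine ⟨Finset.univ.image ch, ?_, ?_⟩
  · intro V hV
    rw [Finset.mem_image] at hV
    obtain ⟨c, -, rfl⟩ := hV
    by_cases h : ∃ V, P V ∧ κ V = c
    · have e : ch c = h.choose := dif_pos h
      rw [e]
      exact h.choose_spec.1.1
    · have e : ch c = 1 := dif_neg h
      rw [e, Matrix.det_one]
      exact one_ne_zero
  · intro V hd hk
    have hV : P V := ⟨hd, hk⟩
    obtain ⟨hV', hκ⟩ := hch V hV
    obtain ⟨V', hV'e⟩ : ∃ V', V' = ch (κ V) := ⟨_, rfl⟩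
    rw [← hV'e] at hV' hκ
    obtain ⟨Z, hZ⟩ : ∃ Z : Matrix (Fin m) (Fin m) ℤ, W V = W V' + (N : ℤ) • Z := by
      have h1 : ∀ i j, ∃ z : ℤ, W V i j = W V' i j + N * z := by
        intro i j
        have h2 : ((W V' i j : ℤ) : ZMod N) = ((W V i j : ℤ) : ZMod N) :=
          congrFun (congrFun hκ i) j
        rw [ZMod.intCast_eq_intCast_iff_dvd_sub] at h2
        obtain ⟨z, hz⟩ := h2
        exact ⟨z, by rw [← hz]; ring⟩
      choose z hz using h1
      refine ⟨Matrix.of z, ?_⟩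
      ext i j
      rw [hz, Matrix.add_apply, Matrix.smul_apply, smul_eq_mul, Matrix.of_apply]
    have hA := lat_step hNi (hW V hV).1 (hW V' hV').2 hZ
    have hA' := lat_step hNi (V := V') (V' := V) (W := W V') (W' := W V) (Z := -Z)
      (hW V' hV').1 (hW V hV).2 (by rw [hZ, smul_neg]; abel)
    refine ⟨1 + V' * Z, ?_, ?_⟩
    · have h1 := congrArg Matrix.det hA
      have h2 := congrArg Matrix.det hA'
      rw [Matrix.det_mul] at h1 h2
      rw [← h1, ← mul_assoc] at h2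
      have h3 : (1 + V * -Z).det * (1 + V' * Z).det = 1 := by
        apply mul_right_cancel₀ hd
        rw [h2, one_mul]
      exact IsUnit.of_mul_eq_one _ (by rw [mul_comm]; exact h3)
    · rw [hA, hV'e]
      exact Finset.mem_image_of_mem _ (Finset.mem_univ _)

end Pool.Agent.L0h39.VO
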